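import Pool.Agent.H37.CNR.Stmts

/-!
Board `cnr`, row WP2: sums of `b` over the cosets of the kernel part of the stabiliser
-/

set_option autoImplicit false

namespace Pool.CND

open Finset

namespace WP2aux

variable {k L : Type} [Field k] [Field L] [Algebra k L]

/-- `g ≠ 1`: `g u ≠ u` for a uniformiser `u` -/
theorem ne_of (hLON : S_LON) (P : Place k L) (g : L ≃ₐ[k] L) (hg : Fixes P g) (hg1 : g ≠ 1)
    (u : L) (hu : u ≠ 0) (hu1 : P.ord u = 1) : g u ≠ u := by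
  intro h
  apply hg1
  apply AlgEquiv.ext
  intro x
  change g x = x
  by_cases hx : x = 0
  · rw [hx, map_zero]
  · by_contra hne
    have hs : g x - x ≠ 0 := sub_ne_zero.2 hne
    obtain ⟨n, hn⟩ : ∃ n : ℕ, P.ord (g x - x) < P.ord x + n :=
      ⟨(P.ord (g x - x) - P.ord x + 1).toNat, by omega⟩
    have h1 := hLON k L P g u n hg hu hu1 (by positivity) (Or.inl (sub_eq_zero.2 h)) x
    rcases h1 with h1 | h1
    · have h2 := h1.resolve_left hs
      omega
    · exact hx h1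

/-- `b` from any uniformiser -/
theorem b_eq (hLON : S_LON) (P : Place k L) (g : L ≃ₐ[k] L) (hg : Fixes P g) (hg1 : g ≠ 1)
    (u : L) (hu : u ≠ 0) (hu1 : P.ord u = 1) : P.b g = P.ord (g u - u) - 1 := by
  have key : ∀ v w : L, v ≠ 0 → P.ord v = 1 → w ≠ 0 → P.ord w = 1 →
      P.ord (g v - v) ≤ P.ord (g w - w) := by
    intro v w hv hv1 hw hw1
    have hgv := ne_of hLON P g hg hg1 v hv hv1
    have hgw := ne_of hLON P g hg hg1 w hw hw1
    have h0 : 1 ≤ P.ord (g v - v) := by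
      have h1 : P.Ge (g v) 1 := hg.ge (Or.inr hv1.ge)
      have h2 : P.Ge v 1 := Or.inr hv1.ge
      exact (P.ge_sub h1 h2).resolve_left (sub_ne_zero.2 hgv)
    have h3 := hLON k L P g v (P.ord (g v - v) - 1) hg hv hv1 (by omega) (Or.inr (by omega)) w
    have h4 := h3.resolve_right hw
    have h5 := h4.resolve_left (sub_ne_zero.2 hgw)
    omega
  have h1 := key P.pi u P.pi_ne P.ord_pi hu hu1
  have h2 := key u P.pi hu hu1 P.pi_ne P.ord_pi
  have h3 : P.b g = P.ord (g P.pi - P.pi) - 1 := rfl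
  omega

end WP2aux

open WP2aux in
theorem wp2_thm (hWP1 : S_WP1) (hFXP : S_FXP) (hRST : S_RST) (hHER : S_HER) (_hART : S_ART)
    (hLON : S_LON) : S_WP2 := by
  intro k L L' G H _ _ _ _ _ _ _ _ ρ ρ' j π P P' e' A g hW hA hg hπ
  have he : e' = Nat.card A := hWP1 k L L' G H ρ ρ' j π P P' e' A hW hA
  have hpos : (0 : ℤ) < (Nat.card A : ℤ) := by
    have := hW.pos
    omega
  have hord : ∀ z : L, z ≠ 0 → (Nat.card A : ℤ) * P.ord z = P'.ord (j z) := by
    rw [← he]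
    exact hW.ord
  have hj0 : ∀ z : L, z ≠ 0 → j z ≠ 0 := fun z hz => by
    rwa [Ne, map_eq_zero]
  -- `g` fixes `P`
  have hfix : Fixes P (ρ (π g)) := by
    intro z hz
    have hz' : ρ (π g) z ≠ 0 := by rwa [Ne, map_eq_zero]
    have h1 := hord _ hz'
    rw [← hW.act, hg _ (hj0 z hz), ← hord z hz] at h1
    exact mul_left_cancel₀ hpos.ne' h1
  refine ⟨hfix, ?_⟩
  have hAf : ∀ n ∈ A, Fixes P' (ρ' n) := fun n hn => ((hA n).1 hn).2
  obtain ⟨F, hF, Q, hQ⟩ := hFXP k L' G P' ρ' A hW.inj' hAf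
  have hnor : ∀ n ∈ A, g * n * g⁻¹ ∈ A := by
    intro n hn
    obtain ⟨h1, h2⟩ := (hA n).1 hn
    refine (hA _).2 ⟨by rw [map_mul, map_mul, h1, mul_one, map_inv, mul_inv_cancel], ?_⟩
    rw [map_mul, map_mul, map_inv]
    exact (hg.mul h2).mul hg.inv
  have hnor' : ∀ n ∈ A, g⁻¹ * n * g ∈ A := by
    intro n hn
    obtain ⟨h1, h2⟩ := (hA n).1 hn
    refine (hA _).2 ⟨by rw [map_mul, map_mul, h1, mul_one, map_inv, inv_mul_cancel], ?_⟩
    rw [map_mul, map_mul, map_inv]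
    exact (hg.inv.mul h2).mul hg
  obtain ⟨γ, hγ, hγf⟩ := hRST k L' G P' ρ' A F Q g hF hQ hnor hnor' hg
  -- `j L` is contained in `F`
  have hjF : ∀ z : L, j z ∈ F := by
    intro z
    refine (hF _).2 fun n hn => ?_
    rw [hW.act, ((hA n).1 hn).1, map_one]
    rfl
  obtain ⟨J, hJ⟩ : ∃ J : L → F, ∀ z, ((J z : F) : L') = j z := ⟨fun z => ⟨j z, hjF z⟩, fun _ => rfl⟩
  have hJ0 : ∀ z : L, z ≠ 0 → J z ≠ 0 := by
    intro z hz h
    apply hj0 z hz
    rw [← hJ, h]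
    rfl
  have hJo : ∀ z : L, z ≠ 0 → Q.ord (J z) = P.ord z := by
    intro z hz
    have h1 := hQ (J z) (hJ0 z hz)
    rw [hJ, ← hord z hz] at h1
    exact mul_left_cancel₀ hpos.ne' h1
  have hgA : g ∉ A := fun h => hπ ((hA g).1 h).1
  have hρ1 : ρ (π g) ≠ 1 := by
    intro h
    apply hπ
    apply hW.inj
    rw [h, map_one]
  have hγJ : ∀ z : L, γ (J z) - J z = J (ρ (π g) z - z) := by
    intro z
    apply Subtype.ext
    change ((γ (J z) : F) : L') - ((J z : F) : L') = ((J (ρ (π g) z - z) : F) : L')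
    rw [hγ, hJ, hJ, hW.act, map_sub]
  have hγ1 : γ ≠ 1 := by
    intro h
    apply hρ1
    apply AlgEquiv.ext
    intro z
    change ρ (π g) z = z
    have h1 := hγJ z
    rw [h] at h1
    change J z - J z = _ at h1
    rw [sub_self] at h1
    by_contra hne
    exact hJ0 _ (sub_ne_zero.2 hne) h1.symm
  have hher := hHER k L' G P' ρ' A F Q g γ hW.inj' hAf hF hQ hgA hg hγ hγf hγ1
  rw [hher]
  congr 1
  have hu0 := hJ0 P.pi P.pi_ne
  have hu1 : Q.ord (J P.pi) = 1 := by rw [hJo _ P.pi_ne, P.ord_pi]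
  rw [b_eq hLON Q γ hγf hγ1 (J P.pi) hu0 hu1, hγJ,
    hJo _ (sub_ne_zero.2 (ne_of hLON P (ρ (π g)) hfix hρ1 P.pi P.pi_ne P.ord_pi))]
  rfl

end Pool.CND
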